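import Pool.Agent.CG2.GalFin

/-!
# Frobenius elements and the roots of `X ^ m - v`
-/

set_option autoImplicit false

namespace Pool.Agent.PRD

open NumberField IsDedekindDomain Pool.Agent.CG2 Polynomial

/-- Two roots of `X ^ m - c` which are congruent modulo a prime not containing `m * c` are
equal. -/
theorem frob_distinct {A : Type} [CommRing A] [IsDomain A] (P : Ideal A)
    (m : ℕ) (hm0 : 0 < m) (c a b : A) (ha : a ^ m = c) (hb : b ^ m = c) (hab : a - b ∈ P)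
    (hc : (m : A) * c ∉ P) : a = b := by
  by_contra hne
  apply hc
  have h0 : a - b ≠ 0 := sub_ne_zero.2 hne
  have h1 : (∑ i ∈ Finset.range m, a ^ i * b ^ (m - 1 - i)) * (a - b) = 0 := by
    rw [geom_sum₂_mul, ha, hb, sub_self]
  have h2 : (∑ i ∈ Finset.range m, a ^ i * b ^ (m - 1 - i)) = 0 :=
    (mul_eq_zero.1 h1).resolve_right h0
  have h3 : Ideal.Quotient.mk P a = Ideal.Quotient.mk P b := (Ideal.Quotient.eq).2 hab
  have h4 : (∑ i ∈ Finset.range m, Ideal.Quotient.mk P b ^ i * Ideal.Quotient.mk P b ^ (m - 1 - i))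
      = 0 := by
    have h5 := congrArg (Ideal.Quotient.mk P) h2
    simp only [map_sum, map_mul, map_pow, map_zero, h3] at h5
    exact h5
  have h5 : (m : A ⧸ P) * Ideal.Quotient.mk P b ^ (m - 1) = 0 := by
    rw [← h4, ← nsmul_eq_mul]
    symm
    calc (∑ i ∈ Finset.range m,
          Ideal.Quotient.mk P b ^ i * Ideal.Quotient.mk P b ^ (m - 1 - i))
        = ∑ i ∈ Finset.range m, Ideal.Quotient.mk P b ^ (m - 1) := by
          refine Finset.sum_congr rfl ?_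
          intro i hi
          rw [← pow_add]
          congr 1
          have := Finset.mem_range.1 hi
          omega
      _ = m • Ideal.Quotient.mk P b ^ (m - 1) := by
          rw [Finset.sum_const, Finset.card_range]
  have h6 : Ideal.Quotient.mk P ((m : A) * c) = 0 := by
    rw [map_mul, map_natCast, ← hb, map_pow]
    have h7 : Ideal.Quotient.mk P b ^ m = Ideal.Quotient.mk P b ^ (m - 1) * Ideal.Quotient.mk P b := by
      rw [← pow_succ]
      congr 1
      omega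
    rw [h7, ← mul_assoc, h5, zero_mul]
  exact Ideal.Quotient.eq_zero_iff_mem.1 h6

/-- The norm of the place of `ℚ` over `p`. -/
theorem frob_norm (p : ℕ) (hp : p.Prime) (w : Pl ℚ) (hw : ((p : ℕ) : 𝓞 ℚ) ∈ w.asIdeal) :
    Ideal.absNorm w.asIdeal = p := by
  have h1 := Ideal.absNorm_dvd_norm_of_mem hw
  have h2 : Algebra.norm ℤ ((p : ℕ) : 𝓞 ℚ) = (p : ℤ) := by
    have h3 : ((p : ℕ) : 𝓞 ℚ) = algebraMap ℤ (𝓞 ℚ) (p : ℤ) := by simp
    rw [h3, Algebra.norm_algebraMap]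
    have h4 : Module.finrank ℤ (𝓞 ℚ) = 1 := by
      rw [RingOfIntegers.rank, Module.finrank_self]
    rw [h4, pow_one]
  rw [h2] at h1
  have h5 : Ideal.absNorm w.asIdeal ∣ p := by exact_mod_cast h1
  rcases (Nat.dvd_prime hp).1 h5 with h6 | h6
  · exfalso
    rw [Ideal.absNorm_eq_one_iff] at h6
    exact w.isPrime.ne_top h6
  · exact h6

theorem frob_int {L : Type} [Field L] (m : ℕ) (hm0 : 0 < m) (v : ℤ) (a : L)
    (ha : a ^ m = (v : L)) : IsIntegral ℤ a := by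
  refine IsIntegral.of_pow hm0 ?_
  rw [ha]
  have h1 : (v : L) = algebraMap ℤ L v := by simp
  rw [h1]
  exact isIntegral_algebraMap

theorem frob_lift {L : Type} [Field L] [NumberField L] (r : Multiset L) :
    (∀ a ∈ r, IsIntegral ℤ a) → ∃ s : Multiset (𝓞 L), s.map (algebraMap (𝓞 L) L) = r := by
  induction r using Multiset.induction with
  | empty =>
    intro _
    exact ⟨0, rfl⟩
  | cons a r ih =>
    intro h
    obtain ⟨s, hs⟩ := ih (fun b hb => h b (Multiset.mem_cons_of_mem hb))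
    refine ⟨(⟨a, h a (Multiset.mem_cons_self a r)⟩ : 𝓞 L) ::ₘ s, ?_⟩
    rw [Multiset.map_cons, hs]
    rfl

/-- Frob: all the roots of `X ^ m - v` lie in `L`; a Frobenius element at a prime over `p` fixes one
of them if `v` is an `m`-th power modulo `p`. -/
theorem frob (L : Type) [Field L] [NumberField L] (m : ℕ) (hm0 : 0 < m) (v : ℤ)
    (hL : (X ^ m - C (v : L) : L[X]).Splits) (p : ℕ) (hp : p.Prime) (hpm : ¬ (p : ℤ) ∣ m * v)
    (w : Pl ℚ) (hw : ((p : ℕ) : 𝓞 ℚ) ∈ w.asIdeal) (x : ZMod p) (hx : x ^ m = (v : ZMod p))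
    (P : Pl L) (σ : Gal(L/ℚ)) (hF : FrobAt w P σ) : ∃ y : L, y ^ m = v ∧ σ y = y := by
  have hpr := P.isPrime
  have : Fact p.Prime := ⟨hp⟩
  -- `p ∈ P`
  have hpP : ((p : ℕ) : 𝓞 L) ∈ P.asIdeal := by
    have h1 : ((p : ℕ) : 𝓞 ℚ) ∈ P.asIdeal.comap (algebraMap (𝓞 ℚ) (𝓞 L)) := by
      rw [show P.asIdeal.comap (algebraMap (𝓞 ℚ) (𝓞 L)) = w.asIdeal from hF.1]
      exact hw
    rw [Ideal.mem_comap, map_natCast] at h1
    exact h1
  have hdvd : ∀ z : ℤ, (p : ℤ) ∣ z → ((z : ℤ) : 𝓞 L) ∈ P.asIdeal := by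
    rintro z ⟨t, rfl⟩
    rw [Int.cast_mul]
    exact P.asIdeal.mul_mem_right _ (by simpa using hpP)
  have hmv : (m : 𝓞 L) * ((v : ℤ) : 𝓞 L) ∉ P.asIdeal := by
    intro h1
    have h2 : IsCoprime (p : ℤ) (m * v) :=
      (Nat.prime_iff_prime_int.1 hp).irreducible.coprime_iff_not_dvd.2 hpm
    obtain ⟨a, b, hab⟩ := h2
    apply hpr.ne_top
    rw [Ideal.eq_top_iff_one]
    have h3 : (1 : 𝓞 L) = (a : 𝓞 L) * ((p : ℕ) : 𝓞 L) + (b : 𝓞 L) * ((m : 𝓞 L) * ((v : ℤ) : 𝓞 L)) := by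
      have h4 := congrArg (fun z : ℤ => ((z : ℤ) : 𝓞 L)) hab
      simp only [Int.cast_add, Int.cast_mul, Int.cast_natCast, Int.cast_one] at h4
      exact h4.symm
    rw [h3]
    exact P.asIdeal.add_mem (P.asIdeal.mul_mem_left _ hpP) (P.asIdeal.mul_mem_left _ h1)
  -- an integer representing `x`
  obtain ⟨x0, hx0⟩ := ZMod.intCast_surjective x
  have hx1 : (p : ℤ) ∣ x0 ^ m - v := by
    rw [← ZMod.intCast_eq_intCast_iff_dvd_sub]
    push_cast
    rw [hx0, hx]
  -- the roots in the ring of integers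
  have hmon : (X ^ m - C (v : L) : L[X]).Monic := monic_X_pow_sub_C _ hm0.ne'
  have hroot : ∀ a ∈ (X ^ m - C (v : L) : L[X]).roots, a ^ m = (v : L) := by
    intro a ha
    have h1 := (mem_roots'.1 ha).2
    simp only [IsRoot.def, eval_sub, eval_pow, eval_X, eval_C] at h1
    exact sub_eq_zero.1 h1
  obtain ⟨s, hs⟩ := frob_lift (L := L) (X ^ m - C (v : L) : L[X]).roots
    (fun a ha => frob_int m hm0 v a (hroot a ha))
  have hprod : ((x0 : 𝓞 L) ^ m - ((v : ℤ) : 𝓞 L)) = (s.map (fun a => (x0 : 𝓞 L) - a)).prod := by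
    apply RingOfIntegers.ext
    have h1 := hL.eval_eq_prod_roots_of_monic hmon (x0 : L)
    simp only [eval_sub, eval_pow, eval_X, eval_C] at h1
    have h2 : algebraMap (𝓞 L) L (s.map (fun a => (x0 : 𝓞 L) - a)).prod =
        ((X ^ m - C (v : L) : L[X]).roots.map (fun a => (x0 : L) - a)).prod := by
      rw [← hs, map_multiset_prod, Multiset.map_map, Multiset.map_map]
      congr 1
    have h3 : algebraMap (𝓞 L) L ((x0 : 𝓞 L) ^ m - ((v : ℤ) : 𝓞 L)) = (x0 : L) ^ m - (v : L) := by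
      rw [map_sub, map_pow, map_intCast, map_intCast]
    exact (h3.trans h1).trans h2.symm
  have hmem : (s.map (fun a => (x0 : 𝓞 L) - a)).prod ∈ P.asIdeal := by
    rw [← hprod]
    have h1 := hdvd _ hx1
    push_cast at h1
    exact h1
  rw [hpr.multiset_prod_mem_iff_exists_mem] at hmem
  obtain ⟨c, hc, hcP⟩ := hmem
  obtain ⟨y, hy, rfl⟩ := Multiset.mem_map.1 hc
  have hym : y ^ m = ((v : ℤ) : 𝓞 L) := by
    apply RingOfIntegers.ext
    have h1 := hroot (algebraMap (𝓞 L) L y) (by rw [← hs]; exact Multiset.mem_map_of_mem _ hy)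
    have h2 : algebraMap (𝓞 L) L (y ^ m) = algebraMap (𝓞 L) L ((v : ℤ) : 𝓞 L) := by
      rw [map_pow, map_intCast]
      exact h1
    exact h2
  have hyx : y - (x0 : 𝓞 L) ∈ P.asIdeal := by
    have h1 := P.asIdeal.neg_mem hcP
    rwa [neg_sub] at h1
  -- the Frobenius
  have hN := frob_norm p hp w hw
  have h1 : σ • y - y ^ p ∈ P.asIdeal := by
    have h2 := hF.2 y
    rwa [hN] at h2
  have h2 : y ^ p - (x0 : 𝓞 L) ^ p ∈ P.asIdeal := by
    obtain ⟨t, ht⟩ := sub_dvd_pow_sub_pow y (x0 : 𝓞 L) p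
    rw [ht]
    exact P.asIdeal.mul_mem_right _ hyx
  have h3 : (x0 : 𝓞 L) ^ p - (x0 : 𝓞 L) ∈ P.asIdeal := by
    have h4 : (p : ℤ) ∣ x0 ^ p - x0 := by
      rw [← ZMod.intCast_eq_intCast_iff_dvd_sub]
      push_cast
      rw [ZMod.pow_card]
    have h5 := hdvd _ h4
    push_cast at h5
    exact h5
  have h4 : σ • y - y ∈ P.asIdeal := by
    have h5 : σ • y - y = (σ • y - y ^ p) + (y ^ p - (x0 : 𝓞 L) ^ p) +
        ((x0 : 𝓞 L) ^ p - (x0 : 𝓞 L)) - (y - (x0 : 𝓞 L)) := by ring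
    rw [h5]
    exact P.asIdeal.sub_mem (P.asIdeal.add_mem (P.asIdeal.add_mem h1 h2) h3) hyx
  have h5 : (σ • y) ^ m = ((v : ℤ) : 𝓞 L) := by
    rw [← smul_pow', hym]
    apply RingOfIntegers.ext
    show σ (((v : ℤ) : 𝓞 L) : L) = _
    rw [show (((v : ℤ) : 𝓞 L) : L) = (v : L) from by push_cast; rfl, map_intCast]
  have h6 := frob_distinct P.asIdeal m hm0 _ _ _ h5 hym h4 hmv
  refine ⟨(y : L), ?_, ?_⟩
  · have h7 := congrArg (fun z : 𝓞 L => (z : L)) hym
    push_cast at h7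
    exact h7
  · have h7 := congrArg (fun z : 𝓞 L => (z : L)) h6
    exact h7

/-- Unram -/
theorem unram (L : Type) [Field L] [NumberField L] (m : ℕ) (hm0 : 0 < m) (v : ℤ)
    (hL : (X ^ m - C (v : ℚ) : ℚ[X]).IsSplittingField ℚ L) (w : Pl ℚ)
    (hw : ((m * v : ℤ) : 𝓞 ℚ) ∉ w.asIdeal) : UnramAt L w := by
  intro P hPw σ hσ
  have hpr := P.isPrime
  have hmv : (m : 𝓞 L) * ((v : ℤ) : 𝓞 L) ∉ P.asIdeal := by
    intro h1
    apply hw
    rw [← show P.asIdeal.comap (algebraMap (𝓞 ℚ) (𝓞 L)) = w.asIdeal from hPw, Ideal.mem_comap,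
      map_intCast]
    push_cast
    exact h1
  have key : ∀ y : L, y ^ m = (v : L) → σ y = y := by
    intro y hy
    have hyi : IsIntegral ℤ y := frob_int m hm0 v y hy
    have h1 : (⟨y, hyi⟩ : 𝓞 L) ^ m = ((v : ℤ) : 𝓞 L) := by
      apply RingOfIntegers.ext
      exact hy
    have h2 : (σ • (⟨y, hyi⟩ : 𝓞 L)) ^ m = ((v : ℤ) : 𝓞 L) := by
      rw [← smul_pow', h1]
      apply RingOfIntegers.ext
      show σ (((v : ℤ) : 𝓞 L) : L) = _
      rw [show (((v : ℤ) : 𝓞 L) : L) = (v : L) from by push_cast; rfl, map_intCast]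
    have h3 := frob_distinct P.asIdeal m hm0 _ _ _ h2 h1 (hσ ⟨y, hyi⟩) hmv
    exact congrArg (fun z : 𝓞 L => (z : L)) h3
  have hadj := hL.adjoin_rootSet
  ext y
  have hy : y ∈ Algebra.adjoin ℚ ((X ^ m - C (v : ℚ) : ℚ[X]).rootSet L) := by
    rw [hadj]
    exact Algebra.mem_top
  show σ y = y
  induction hy using Algebra.adjoin_induction with
  | mem y hy =>
    apply key
    rw [mem_rootSet] at hy
    have h1 := hy.2
    simp only [map_sub, map_pow, aeval_X, aeval_C] at h1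
    rw [sub_eq_zero.1 h1]
    simp
  | algebraMap r => exact σ.commutes r
  | add y z _ _ h1 h2 => rw [map_add, h1, h2]
  | mul y z _ _ h1 h2 => rw [map_mul, h1, h2]

end Pool.Agent.PRD
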