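import Mathlib

/-!
# The product of `1 - 1 / l` is small
-/

set_option autoImplicit false

namespace Pool.Agent.PRD

theorem SMALL_sqf (s : Finset ℕ) (hs : ∀ p ∈ s, p.Prime) : Squarefree (∏ p ∈ s, p) := by
  induction s using Finset.induction_on with
  | empty => simp
  | insert a s ha ih =>
    rw [Finset.prod_insert ha, Nat.squarefree_mul_iff]
    refine ⟨?_, (hs a (Finset.mem_insert_self a s)).prime.squarefree,
      ih fun p hp => hs p (Finset.mem_insert_of_mem hp)⟩
    apply Nat.Coprime.prod_right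
    intro p hp
    refine (Nat.coprime_primes (hs a (Finset.mem_insert_self a s))
      (hs p (Finset.mem_insert_of_mem hp))).2 ?_
    rintro rfl
    exact ha hp

/-- Small -/
theorem small (ε : ℝ) (hε : 0 < ε) : ∃ m : ℕ, 0 < m ∧ Odd m ∧ Squarefree m ∧
    ∏ l ∈ m.primeFactors, (1 - 1 / (l : ℝ)) < ε := by
  have h1 : Filter.Tendsto (fun n => ∑ i ∈ Finset.range n,
      Set.indicator {p : ℕ | p.Prime} (fun n : ℕ => (1 : ℝ) / n) i) Filter.atTop Filter.atTop := by
    rw [← not_summable_iff_tendsto_nat_atTop_of_nonneg]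
    · exact not_summable_one_div_on_primes
    · intro n
      apply Set.indicator_nonneg
      intro x _
      positivity
  obtain ⟨X, hX⟩ := (h1.eventually_gt_atTop (-Real.log ε + 1 / 2)).exists
  set S : Finset ℕ := (Finset.range X).filter (fun p => p.Prime ∧ p ≠ 2) with hS
  have hSp : ∀ p ∈ S, p.Prime := fun p hp => (Finset.mem_filter.1 hp).2.1
  have hpf : (∏ p ∈ S, p).primeFactors = S := Nat.primeFactors_prod hSp
  have hpos : 0 < ∏ p ∈ S, p := Finset.prod_pos fun p hp => (hSp p hp).pos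
  refine ⟨∏ p ∈ S, p, hpos, ?_, SMALL_sqf S hSp, ?_⟩
  · rw [← Nat.not_even_iff_odd, even_iff_two_dvd]
    intro h2
    have h3 : 2 ∈ (∏ p ∈ S, p).primeFactors := Nat.mem_primeFactors.2
      ⟨Nat.prime_two, h2, hpos.ne'⟩
    rw [hpf] at h3
    exact (Finset.mem_filter.1 h3).2.2 rfl
  · rw [hpf]
    have h2 : ∏ l ∈ S, (1 - 1 / (l : ℝ)) ≤ Real.exp (-∑ l ∈ S, 1 / (l : ℝ)) := by
      rw [← Finset.sum_neg_distrib, Real.exp_sum]
      refine Finset.prod_le_prod ?_ ?_
      · intro l hl
        have h4 : (1 : ℝ) ≤ l := by exact_mod_cast (hSp l hl).one_lt.le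
        rw [sub_nonneg, div_le_one (by linarith)]
        exact h4
      · intro l _
        have := Real.add_one_le_exp (-(1 / (l : ℝ)))
        linarith
    have h3 : ∑ i ∈ Finset.range X, Set.indicator {p : ℕ | p.Prime} (fun n : ℕ => (1 : ℝ) / n) i ≤
        ∑ l ∈ S, 1 / (l : ℝ) + 1 / 2 := by
      have h4 : ∑ i ∈ Finset.range X,
          Set.indicator {p : ℕ | p.Prime} (fun n : ℕ => (1 : ℝ) / n) i =
          ∑ i ∈ (Finset.range X).filter Nat.Prime, 1 / (i : ℝ) := by
        rw [Finset.sum_filter]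
        refine Finset.sum_congr rfl fun i _ => ?_
        simp [Set.indicator_apply]
      have h5 : (Finset.range X).filter Nat.Prime ⊆ insert 2 S := by
        intro p hp
        rw [Finset.mem_filter] at hp
        rw [Finset.mem_insert, hS, Finset.mem_filter]
        by_cases h : p = 2
        · exact Or.inl h
        · exact Or.inr ⟨hp.1, hp.2, h⟩
      have h6 : 2 ∉ S := by simp [hS]
      rw [h4]
      calc ∑ i ∈ (Finset.range X).filter Nat.Prime, 1 / (i : ℝ)
          ≤ ∑ i ∈ insert 2 S, 1 / (i : ℝ) :=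
            Finset.sum_le_sum_of_subset_of_nonneg h5 (fun i _ _ => by positivity)
        _ = ∑ l ∈ S, 1 / (l : ℝ) + 1 / 2 := by
            rw [Finset.sum_insert h6]
            push_cast
            ring
    have h7 : Real.log ε > -∑ l ∈ S, 1 / (l : ℝ) := by linarith
    calc ∏ l ∈ S, (1 - 1 / (l : ℝ)) ≤ Real.exp (-∑ l ∈ S, 1 / (l : ℝ)) := h2
      _ < Real.exp (Real.log ε) := Real.exp_lt_exp.2 h7
      _ = ε := Real.exp_log hε

end Pool.Agent.PRD
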