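import Pool.Agent.CG2.GalDens

/-!
# From sets of places of `ℚ` to sets of primes
-/

set_option autoImplicit false

namespace Pool.Agent.PRD

open NumberField IsDedekindDomain Pool.Agent.CG2

namespace TransAux

theorem exists_place (p : ℕ) (hp : p.Prime) : ∃ w : Pl ℚ, ((p : ℕ) : 𝓞 ℚ) ∈ w.asIdeal ∧
    Ideal.absNorm w.asIdeal = p := by
  have hn : Ideal.absNorm (Ideal.span {((p : ℕ) : 𝓞 ℚ)}) = p := by
    rw [Ideal.absNorm_span_singleton]
    have h1 : ((p : ℕ) : 𝓞 ℚ) = algebraMap ℤ (𝓞 ℚ) (p : ℤ) := by simp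
    rw [h1, Algebra.norm_algebraMap, RingOfIntegers.rank, Module.finrank_self, pow_one]
    simp
  have hpr : (Ideal.span {((p : ℕ) : 𝓞 ℚ)}).IsPrime := by
    apply Ideal.isPrime_of_irreducible_absNorm
    rw [hn]
    exact hp
  refine ⟨⟨Ideal.span {((p : ℕ) : 𝓞 ℚ)}, hpr, ?_⟩, Ideal.mem_span_singleton_self _, hn⟩
  intro h
  rw [h, Ideal.absNorm_bot] at hn
  exact hp.ne_zero hn.symm

end TransAux

open TransAux

/-- Trans -/
theorem trans (A : Set (Pl ℚ)) (c : ℝ) (hA : HasDen A c) (P : Set ℕ) (hP : ∀ p ∈ P, p.Prime)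
    (N : ℕ) (h : ∀ p ∈ P, N < p → ∀ w : Pl ℚ, ((p : ℕ) : 𝓞 ℚ) ∈ w.asIdeal → w ∈ A) :
    ∃ C : ℝ, ∀ s : ℝ, 1 < s → s ≤ 2 →
      ∑' p : P, ((p : ℕ) : ℝ) ^ (-s) ≤ c * Real.log (1 / (s - 1)) + C := by
  classical
  obtain ⟨C, hC⟩ := hA
  choose w hw hwn using fun p : P => exists_place p.1 (hP p.1 p.2)
  refine ⟨C + (N + 1), fun s hs hs2 => ?_⟩
  have hDs : Ds A s ≤ c * Real.log (1 / (s - 1)) + C := by
    have h1 := (abs_le.1 (hC s ⟨hs, hs2⟩)).2
    linarith
  refine (Real.tsum_le_of_sum_le (c := (N + 1) + Ds A s) (fun p => by positivity) ?_).trans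
    (by linarith)
  intro u
  rw [← Finset.sum_filter_add_sum_filter_not u (fun p : P => (p : ℕ) ≤ N)]
  refine add_le_add ?_ ?_
  · have h1 : ∀ p ∈ u.filter (fun p : P => (p : ℕ) ≤ N), ((p : ℕ) : ℝ) ^ (-s) ≤ 1 := by
      intro p _
      apply Real.rpow_le_one_of_one_le_of_nonpos
      · exact_mod_cast (hP p.1 p.2).one_lt.le
      · linarith
    refine (Finset.sum_le_sum h1).trans ?_
    rw [Finset.sum_const, nsmul_eq_mul, mul_one]
    have h2 : (u.filter (fun p : P => (p : ℕ) ≤ N)).card ≤ (Finset.range (N + 1)).card := by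
      refine Finset.card_le_card_of_injOn (fun p : P => (p : ℕ)) ?_ ?_
      · intro p hp
        have := (Finset.mem_filter.1 hp).2
        simp only [Finset.coe_range, Set.mem_Iio]
        omega
      · intro p _ p' _ hpp
        exact Subtype.ext hpp
    rw [Finset.card_range] at h2
    exact_mod_cast h2
  · have hinj : ∀ p p' : P, w p = w p' → p = p' := by
      intro p p' hpp
      apply Subtype.ext
      rw [← hwn p, ← hwn p', hpp]
    have hwA : ∀ p ∈ u.filter (fun p : P => ¬ (p : ℕ) ≤ N), w p ∈ A := by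
      intro p hp
      exact h p.1 p.2 (by have := (Finset.mem_filter.1 hp).2; omega) _ (hw p)
    let g : {p // p ∈ u.filter (fun p : P => ¬ (p : ℕ) ≤ N)} → A := fun p => ⟨w p.1, hwA p.1 p.2⟩
    have hg : Function.Injective g := by
      intro p p' hpp
      apply Subtype.ext
      apply hinj
      exact congrArg (fun z => z.1) hpp
    have h1 : ∑ p ∈ u.filter (fun p : P => ¬ (p : ℕ) ≤ N), ((p : ℕ) : ℝ) ^ (-s) =
        ∑ v ∈ Finset.univ.map ⟨g, hg⟩, (Ideal.absNorm v.1.asIdeal : ℝ) ^ (-s) := by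
      rw [Finset.sum_map, ← Finset.sum_attach (u.filter (fun p : P => ¬ (p : ℕ) ≤ N))]
      refine Finset.sum_congr rfl fun p _ => ?_
      simp only [Function.Embedding.coeFn_mk, g, hwn]
    rw [h1]
    exact (Ds_summable A hs).sum_le_tsum _ (fun v _ => by positivity)

end Pool.Agent.PRD
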