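import Pool.Agent.PRD.Field
import Pool.Agent.PRD.Frob
import Pool.Agent.PRD.Trans
import Pool.Agent.PRD.Small
import Pool.Agent.CG2.GalFin2

/-!
# The Dirichlet density of the primes modulo which `v` is an `m`-th power
-/

set_option autoImplicit false

namespace Pool.Agent.PRD

open NumberField IsDedekindDomain Pool.Agent.CG2 Polynomial

theorem exists_split (f : ℚ[X]) : ∃ (L : Type) (_ : Field L) (_ : CharZero L),
    f.IsSplittingField ℚ L := by
  have hc : CharZero f.SplittingField :=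
    charZero_of_injective_algebraMap (algebraMap ℚ f.SplittingField).injective
  refine ⟨f.SplittingField, inferInstance, hc, ?_⟩
  convert Polynomial.IsSplittingField.splittingField f
  exact Subsingleton.elim _ _

theorem density (m : ℕ) (hm0 : 0 < m) (hm : Odd m) (hsq : Squarefree m) (v : ℤ) (q : ℕ)
    (hq : q.Prime) (h1 : (q : ℤ) ∣ v) (h2 : ¬ (q : ℤ) ^ 2 ∣ v) :
    ∃ C : ℝ, ∀ s : ℝ, 1 < s → s ≤ 2 →
      ∑' p : {p : ℕ | p.Prime ∧ ∃ x : ZMod p, x ^ m = (v : ZMod p)}, ((p : ℕ) : ℝ) ^ (-s) ≤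
        (∏ l ∈ m.primeFactors, (1 - 1 / (l : ℝ))) * Real.log (1 / (s - 1)) + C := by
  classical
  have hv0 : v ≠ 0 := by
    rintro rfl
    exact h2 (dvd_zero _)
  have hmv : (m * v : ℤ) ≠ 0 := mul_ne_zero (by exact_mod_cast hm0.ne') hv0
  -- the splitting field
  have hsepf : (X ^ m - C (v : ℚ) : ℚ[X]).Separable := by
    apply separable_X_pow_sub_C
    · exact_mod_cast hm0.ne'
    · exact_mod_cast hv0
  obtain ⟨L, hLf, hLc, hsplit⟩ := exists_split (X ^ m - C (v : ℚ) : ℚ[X])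
  have hgal : IsGalois ℚ L := IsGalois.of_separable_splitting_field hsepf
  have hNF : NumberField L :=
    { to_charZero := hLc
      to_finiteDimensional :=
        Polynomial.IsSplittingField.finiteDimensional L (X ^ m - C (v : ℚ) : ℚ[X]) }
  have hsplL : (X ^ m - C (v : L) : L[X]).Splits := by
    have h3 := hsplit.splits
    have h4 : (X ^ m - C (v : ℚ) : ℚ[X]).map (algebraMap ℚ L) = X ^ m - C (v : L) := by
      rw [Polynomial.map_sub, Polynomial.map_pow, map_X, map_C, map_intCast]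
    rwa [h4] at h3
  have hcard := card_fix L m hm0 hm hsq v q hq h1 h2 hsplit
  obtain ⟨T, hTdef⟩ : ∃ T : Set (Pl ℚ), T = {w : Pl ℚ | ((m * v : ℤ) : 𝓞 ℚ) ∈ w.asIdeal} :=
    ⟨_, rfl⟩
  have hT : T.Finite := by
    have h := Ideal.finite_factors (I := Ideal.span {((m * v : ℤ) : 𝓞 ℚ)}) (by
      rw [Ne, Ideal.zero_eq_bot, Ideal.span_singleton_eq_bot]
      exact_mod_cast hmv)
    rw [hTdef]
    refine h.subset ?_
    intro w hw
    exact Ideal.dvd_iff_le.2 ((Ideal.span_singleton_le_iff_mem _).2 hw)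
  have hden := frob_density_fin (L := L) T hT (fun w hw => unram L m hm0 v hsplit w (by
      rw [hTdef] at hw; exact hw))
    {σ : Gal(L/ℚ) | ∃ x : L, x ^ m = v ∧ σ x = x} (by
      rintro g ⟨x, hx, hgx⟩ g' h
      refine ⟨x, hx, ?_⟩
      have h3 : g' ∈ Subgroup.zpowers g := by
        rw [← h]; exact Subgroup.mem_zpowers _
      obtain ⟨k, hk⟩ := h3
      have h4 : g ∈ MulAction.stabilizer Gal(L/ℚ) x := hgx
      have h5 : g' ∈ MulAction.stabilizer Gal(L/ℚ) x := by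
        rw [← hk]; exact Subgroup.zpow_mem _ h4 k
      exact h5) (by
      rintro g ⟨x, hx, hgx⟩ y
      refine ⟨y x, ?_, ?_⟩
      · rw [← map_pow, hx, map_intCast]
      · simp [hgx])
  rw [hcard] at hden
  refine trans _ _ hden _ (fun p hp => hp.1) (m * v : ℤ).natAbs ?_
  rintro p ⟨hp, x, hx⟩ hpN w hw
  have hpm : ¬ (p : ℤ) ∣ m * v := by
    intro h
    have h3 := Nat.le_of_dvd (Int.natAbs_pos.2 hmv) (Int.natCast_dvd.1 h)
    omega
  refine ⟨?_, ?_⟩
  · rw [hTdef]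
    intro h
    -- p and m v are coprime integers in w
    have hpZ : Prime (p : ℤ) := Nat.prime_iff_prime_int.1 hp
    obtain ⟨a, b, hab⟩ := (Prime.coprime_iff_not_dvd hpZ).2 hpm
    apply w.isPrime.ne_top
    rw [Ideal.eq_top_iff_one]
    have h3 : (1 : 𝓞 ℚ) = (a : 𝓞 ℚ) * ((p : ℕ) : 𝓞 ℚ) + (b : 𝓞 ℚ) * ((m * v : ℤ) : 𝓞 ℚ) := by
      have h4 := congrArg (fun z : ℤ => (z : 𝓞 ℚ)) hab
      push_cast at h4 ⊢
      exact h4.symm
    rw [h3]
    exact w.asIdeal.add_mem (w.asIdeal.mul_mem_left _ hw) (w.asIdeal.mul_mem_left _ h)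
  · obtain ⟨P, σ, hF⟩ := exists_frobAt (F := ℚ) (L := L) w
    exact ⟨P, σ, frob L m hm0 v hsplL p hp hpm w hw x hx P σ hF, hF⟩

/-- for every `ε > 0` there are `m` with small density for all `v` -/
theorem density_small (ε : ℝ) (hε : 0 < ε) : ∃ m : ℕ, 0 < m ∧ ∀ (v : ℤ) (q : ℕ), q.Prime →
    (q : ℤ) ∣ v → ¬ (q : ℤ) ^ 2 ∣ v → ∃ C : ℝ, ∀ s : ℝ, 1 < s → s ≤ 2 →
      ∑' p : {p : ℕ | p.Prime ∧ ∃ x : ZMod p, x ^ m = (v : ZMod p)}, ((p : ℕ) : ℝ) ^ (-s) ≤
        ε * Real.log (1 / (s - 1)) + C := by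
  obtain ⟨m, hm0, hm, hsq, hlt⟩ := small ε hε
  refine ⟨m, hm0, fun v q hq h1 h2 => ?_⟩
  obtain ⟨C, hC⟩ := density m hm0 hm hsq v q hq h1 h2
  refine ⟨C, fun s hs hs2 => (hC s hs hs2).trans ?_⟩
  have hlog : 0 ≤ Real.log (1 / (s - 1)) := by
    apply Real.log_nonneg
    rw [le_div_iff₀ (by linarith)]
    linarith
  have := mul_le_mul_of_nonneg_right hlt.le hlog
  linarith

end Pool.Agent.PRD
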