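import Mathlib

/-!
# An average over the units modulo a squarefree number
-/

set_option autoImplicit false

namespace Pool.Agent.PRD

/-- the sum over the units of a finite ring -/
noncomputable def AVG_F (R : Type) [CommRing R] [Fintype Rˣ] : ℝ :=
  ∑ u : Rˣ, (1 / (Nat.card {z : R | (u : R) * z = z} : ℝ))

theorem AVG_equiv {R S : Type} [CommRing R] [CommRing S] [Fintype Rˣ] [Fintype Sˣ]
    (e : R ≃+* S) : AVG_F R = AVG_F S := by
  unfold AVG_F
  refine Fintype.sum_equiv (Units.mapEquiv e.toMulEquiv).toEquiv _ _ fun u => ?_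
  congr 2
  refine Nat.card_congr (e.toEquiv.subtypeEquiv fun z => ?_)
  change (u : R) * z = z ↔ e (u : R) * e z = e z
  rw [← map_mul, e.injective.eq_iff]

theorem AVG_prod {R S : Type} [CommRing R] [CommRing S] [Fintype Rˣ] [Fintype Sˣ]
    [Fintype (R × S)ˣ] : AVG_F (R × S) = AVG_F R * AVG_F S := by
  unfold AVG_F
  rw [Fintype.sum_mul_sum, ← Fintype.sum_prod_type']
  refine Fintype.sum_equiv MulEquiv.prodUnits.toEquiv _ _ fun w => ?_
  have h : Nat.card {z : R × S | (w : R × S) * z = z} =
      Nat.card {z : R | ((w : R × S).1) * z = z} * Nat.card {z : S | ((w : R × S).2) * z = z} := by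
    rw [← Nat.card_prod]
    refine Nat.card_congr
      { toFun := fun z => (⟨z.1.1, congrArg Prod.fst z.2⟩, ⟨z.1.2, congrArg Prod.snd z.2⟩)
        invFun := fun z => ⟨(z.1.1, z.2.1), Prod.ext z.1.2 z.2.2⟩
        left_inv := fun z => rfl
        right_inv := fun z => rfl }
  rw [h]
  push_cast
  rw [one_div_mul_one_div]
  rfl

theorem AVG_prime (l : ℕ) (hl : l.Prime) [NeZero l] :
    AVG_F (ZMod l) = (l.totient : ℝ) * (1 - 1 / (l : ℝ)) := by
  classical
  have := Fact.mk hl
  unfold AVG_F
  rw [← Finset.add_sum_erase Finset.univ _ (Finset.mem_univ (1 : (ZMod l)ˣ))]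
  have h1 : Nat.card {z : ZMod l | ((1 : (ZMod l)ˣ) : ZMod l) * z = z} = l := by
    have : {z : ZMod l | ((1 : (ZMod l)ˣ) : ZMod l) * z = z} = Set.univ := by
      ext z
      simp
    rw [this, Nat.card_congr (Equiv.Set.univ _), Nat.card_zmod]
  have h2 : ∀ u ∈ (Finset.univ : Finset (ZMod l)ˣ).erase 1,
      (1 / (Nat.card {z : ZMod l | (u : ZMod l) * z = z} : ℝ)) = 1 := by
    intro u hu
    have hu1 : (u : ZMod l) ≠ 1 := by
      intro h
      exact (Finset.ne_of_mem_erase hu) (Units.ext h)
    have : {z : ZMod l | (u : ZMod l) * z = z} = {0} := by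
      ext z
      constructor
      · intro h
        have h3 : ((u : ZMod l) - 1) * z = 0 := by
          rw [sub_mul, one_mul, h, sub_self]
        rcases mul_eq_zero.1 h3 with h4 | h4
        · exact absurd (sub_eq_zero.1 h4) hu1
        · exact h4
      · intro h
        have h' : z = 0 := h
        change (u : ZMod l) * z = z
        rw [h', mul_zero]
    rw [this]
    simp
  rw [h1, Finset.sum_congr rfl h2, Finset.sum_const, Finset.card_erase_of_mem (Finset.mem_univ _),
    Finset.card_univ, ZMod.card_units_eq_totient, Nat.totient_prime hl, nsmul_eq_mul, mul_one]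
  have hl2 := hl.two_le
  have hl0 : (l : ℝ) ≠ 0 := by
    have := hl.pos
    positivity
  have e1 : ((l - 1 - 1 : ℕ) : ℝ) = (l : ℝ) - 2 := by
    rw [Nat.sub_sub, Nat.cast_sub hl2]
    norm_num
  have e2 : ((l - 1 : ℕ) : ℝ) = (l : ℝ) - 1 := by
    rw [Nat.cast_sub (by omega)]
    norm_num
  rw [e1, e2]
  field_simp
  ring

theorem AVG_main (m : ℕ) : ∀ [NeZero m], Squarefree m →
    AVG_F (ZMod m) = (m.totient : ℝ) * ∏ l ∈ m.primeFactors, (1 - 1 / (l : ℝ)) := by
  induction m using Nat.recOnPosPrimePosCoprime with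
  | prime_pow p n hp hn =>
    intro _ hsq
    have hn1 : n = 1 := by
      by_contra hne
      have h2 : p * p ∣ p ^ n := by
        rw [← sq]
        exact pow_dvd_pow p (by omega)
      exact hp.not_isUnit (hsq p h2)
    subst hn1
    have hne : NeZero p := ⟨hp.ne_zero⟩
    have e := AVG_prime p hp
    have e2 : AVG_F (ZMod (p ^ 1)) = AVG_F (ZMod p) :=
      AVG_equiv (ZMod.ringEquivCongr (pow_one p))
    rw [e2, e, pow_one, hp.primeFactors, Finset.prod_singleton]
  | zero =>
    intro h
    exact absurd rfl h.out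
  | one =>
    intro _ _
    unfold AVG_F
    rw [Fintype.sum_unique]
    have hss : Subsingleton (ZMod 1) := inferInstanceAs (Subsingleton (Fin 1))
    have h : {z : ZMod 1 | ((default : (ZMod 1)ˣ) : ZMod 1) * z = z} = Set.univ :=
      Set.eq_univ_of_forall fun z => Subsingleton.elim _ _
    rw [h, Nat.card_congr (Equiv.Set.univ _), Nat.card_zmod]
    simp
  | coprime a b ha hb hab iha ihb =>
    intro _ hsq
    have hna : NeZero a := ⟨by omega⟩
    have hnb : NeZero b := ⟨by omega⟩
    rw [AVG_equiv (ZMod.chineseRemainder hab), AVG_prod,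
      iha (hsq.squarefree_of_dvd (Dvd.intro _ rfl)),
      ihb (hsq.squarefree_of_dvd (Dvd.intro_left _ rfl)), Nat.totient_mul hab,
      hab.primeFactors_mul, Finset.prod_union hab.disjoint_primeFactors]
    push_cast
    ring

/-- Avg -/
theorem avg (m : ℕ) [NeZero m] (hm : Squarefree m) :
    ∑ u : (ZMod m)ˣ, (1 / (Nat.card {z : ZMod m | (u : ZMod m) * z = z} : ℝ)) =
      (m.totient : ℝ) * ∏ l ∈ m.primeFactors, (1 - 1 / (l : ℝ)) :=
  AVG_main m hm

end Pool.Agent.PRD
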