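import Mathlib

/-!
# Counting group elements with a fixed point
-/

set_option autoImplicit false

namespace Pool.Agent.PRD

/-- for a transitive normal subgroup: the number of elements of `N` mapping `x` to `y` -/
theorem COUNT_c {G Ω : Type} [Group G] [Fintype G] [Fintype Ω] [DecidableEq Ω] [MulAction G Ω]
    (N : Subgroup G) [Fintype N] (htr : ∀ x y : Ω, ∃ n ∈ N, n • x = y) (x y : Ω) :
    Fintype.card Ω * (Finset.univ.filter (fun n : N => (n : G) • x = y)).card =
      Fintype.card N := by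
  have h1 : ∀ y', (Finset.univ.filter (fun n : N => (n : G) • x = y')).card =
      (Finset.univ.filter (fun n : N => (n : G) • x = y)).card := by
    intro y'
    obtain ⟨m, hm, hmy⟩ := htr y' y
    refine Finset.card_bij (fun n _ => (⟨m, hm⟩ : N) * n) ?_ ?_ ?_
    · intro n hn
      rw [Finset.mem_filter] at hn ⊢
      refine ⟨Finset.mem_univ _, ?_⟩
      rw [Subgroup.coe_mul, mul_smul, hn.2, hmy]
    · intro n _ n' _ h
      exact mul_left_cancel h
    · intro n hn
      rw [Finset.mem_filter] at hn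
      refine ⟨(⟨m, hm⟩ : N)⁻¹ * n, ?_, by group⟩
      rw [Finset.mem_filter]
      refine ⟨Finset.mem_univ _, ?_⟩
      rw [Subgroup.coe_mul, mul_smul, hn.2, ← hmy]
      change m⁻¹ • m • y' = y'
      rw [inv_smul_smul]
  have h2 : ∑ y' : Ω, (Finset.univ.filter (fun n : N => (n : G) • x = y')).card =
      Fintype.card N := by
    rw [← Finset.card_univ (α := N)]
    exact (Finset.card_eq_sum_card_fiberwise (f := fun n : N => (n : G) • x)
      (s := Finset.univ) (t := Finset.univ) (fun _ _ => Finset.mem_univ _)).symm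
  rw [← h2, Finset.sum_congr rfl fun y' _ => h1 y', Finset.sum_const, Finset.card_univ,
    smul_eq_mul]

/-- the sum over a coset of the number of fixed points -/
theorem COUNT_fix {G Ω : Type} [Group G] [Fintype G] [Fintype Ω] [DecidableEq Ω] [MulAction G Ω]
    (N : Subgroup G) [Fintype N] (hne : Nonempty Ω) (htr : ∀ x y : Ω, ∃ n ∈ N, n • x = y)
    (σ : G) :
    ∑ n : N, (Finset.univ.filter (fun x : Ω => (σ * (n : G)) • x = x)).card =
      Fintype.card N := by
  have h1 : ∑ n : N, (Finset.univ.filter (fun x : Ω => (σ * (n : G)) • x = x)).card =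
      ∑ x : Ω, (Finset.univ.filter (fun n : N => (n : G) • x = σ⁻¹ • x)).card := by
    simp only [Finset.card_filter]
    rw [Finset.sum_comm]
    refine Finset.sum_congr rfl fun x _ => Finset.sum_congr rfl fun n _ => ?_
    have : (σ * (n : G)) • x = x ↔ (n : G) • x = σ⁻¹ • x := by
      rw [mul_smul]
      constructor
      · intro h
        rw [← h, inv_smul_smul, h]
      · intro h
        rw [h, smul_inv_smul]
    simp only [this]
  rw [h1]
  have hpos : 0 < Fintype.card Ω := Fintype.card_pos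
  apply Nat.eq_of_mul_eq_mul_left hpos
  rw [Finset.mul_sum, Finset.sum_congr rfl fun x _ => COUNT_c N htr x (σ⁻¹ • x),
    Finset.sum_const, Finset.card_univ, smul_eq_mul]

/-- Count -/
theorem count {G Ω : Type} [Group G] [Fintype G] [Fintype Ω] [MulAction G Ω] (N : Subgroup G)
    [N.Normal] (hne : Nonempty Ω) (htr : ∀ x y : Ω, ∃ n ∈ N, n • x = y) (g : G → ℕ)
    (hg : ∀ σ τ : G, σ⁻¹ * τ ∈ N → g σ = g τ)
    (hfix : ∀ (σ : G) (x : Ω), σ • x = x → Nat.card {y : Ω | σ • y = y} = g σ)
    (hpos : ∀ σ : G, 0 < g σ) :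
    (Nat.card {σ : G | ∃ x : Ω, σ • x = x} : ℝ) = ∑ σ : G, (1 / (g σ : ℝ)) := by
  classical
  set fx : G → ℕ := fun σ => (Finset.univ.filter (fun x : Ω => σ • x = x)).card with hfx
  have hcard : ∀ σ, Nat.card {y : Ω | σ • y = y} = fx σ := by
    intro σ
    rw [hfx, Nat.card_eq_fintype_card, ← Set.toFinset_card]
    congr 1
    ext y
    simp
  have h1 : (Nat.card {σ : G | ∃ x : Ω, σ • x = x} : ℝ) = ∑ σ : G, (fx σ : ℝ) / (g σ : ℝ) := by
    have e1 : Nat.card {σ : G | ∃ x : Ω, σ • x = x} =
        ∑ σ : G, if ∃ x : Ω, σ • x = x then 1 else 0 := by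
      rw [Nat.card_eq_fintype_card, ← Set.toFinset_card, ← Finset.card_filter]
      congr 1
      ext y
      simp
    rw [e1]
    push_cast
    refine Finset.sum_congr rfl fun σ _ => ?_
    by_cases hx : ∃ x : Ω, σ • x = x
    · rw [if_pos hx]
      obtain ⟨x, hx⟩ := hx
      have e2 : fx σ = g σ := by rw [← hcard, hfix σ x hx]
      have e3 : (g σ : ℝ) ≠ 0 := by
        have := hpos σ
        positivity
      rw [e2, div_self e3]
    · rw [if_neg hx]
      have e2 : fx σ = 0 := by
        rw [hfx, Finset.card_eq_zero, Finset.filter_eq_empty_iff]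
        intro x _ h
        exact hx ⟨x, h⟩
      rw [e2, Nat.cast_zero, zero_div]
  rw [h1]
  have hN : (Fintype.card N : ℝ) ≠ 0 := by
    have : 0 < Fintype.card N := Fintype.card_pos
    positivity
  apply mul_left_cancel₀ hN
  calc (Fintype.card N : ℝ) * ∑ σ : G, (fx σ : ℝ) / (g σ : ℝ)
      = ∑ n : N, ∑ σ : G, (fx σ : ℝ) / (g σ : ℝ) := by
        rw [Finset.sum_const, Finset.card_univ, nsmul_eq_mul]
    _ = ∑ n : N, ∑ σ : G, (fx (σ * (n : G)) : ℝ) / (g σ : ℝ) := by
        refine Finset.sum_congr rfl fun n _ => ?_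
        refine (Fintype.sum_equiv (Equiv.mulRight (n : G))
          (fun σ => (fx (σ * (n : G)) : ℝ) / (g σ : ℝ)) (fun σ => (fx σ : ℝ) / (g σ : ℝ))
          fun σ => ?_).symm
        rw [Equiv.coe_mulRight, ← hg σ (σ * (n : G)) (by rw [inv_mul_cancel_left]; exact n.2)]
    _ = ∑ σ : G, ∑ n : N, (fx (σ * (n : G)) : ℝ) / (g σ : ℝ) := Finset.sum_comm
    _ = ∑ σ : G, (Fintype.card N : ℝ) / (g σ : ℝ) := by
        refine Finset.sum_congr rfl fun σ _ => ?_
        rw [← Finset.sum_div, ← COUNT_fix N hne htr σ]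
        push_cast
        rfl
    _ = (Fintype.card N : ℝ) * ∑ σ : G, (1 / (g σ : ℝ)) := by
        rw [Finset.mul_sum]
        refine Finset.sum_congr rfl fun σ _ => ?_
        ring

end Pool.Agent.PRD
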