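import Pool.Agent.PRD.Irr
import Pool.Agent.PRD.Count
import Pool.Agent.PRD.Avg

/-!
# The proportion of automorphisms fixing a root of `X ^ m - v`
-/

set_option autoImplicit false

namespace Pool.Agent.PRD

open Polynomial IntermediateField

namespace FieldAux

theorem sum_comp_hom {G H : Type} [Group G] [Group H] [Fintype G] [Fintype H] (φ : G →* H)
    (hφ : Function.Surjective φ) (h : H → ℝ) :
    (∑ σ : G, h (φ σ)) * (Nat.card H : ℝ) = (Nat.card G : ℝ) * ∑ u : H, h u := by
  classical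
  have hc : ∀ u : H, (Finset.univ.filter fun σ : G => φ σ = u).card =
      (Finset.univ.filter fun σ : G => φ σ = 1).card := fun u =>
    MonoidHom.card_fiber_eq_of_mem_range φ (hφ u) (hφ 1)
  obtain ⟨c, hcdef⟩ : ∃ c : ℕ, c = (Finset.univ.filter fun σ : G => φ σ = 1).card := ⟨_, rfl⟩
  have h1 : ∑ σ : G, h (φ σ) = (c : ℝ) * ∑ u : H, h u := by
    rw [← Finset.sum_fiberwise_of_maps_to (s := Finset.univ) (t := Finset.univ) (g := φ)
      (fun _ _ => Finset.mem_univ _), Finset.mul_sum]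
    refine Finset.sum_congr rfl fun u _ => ?_
    rw [Finset.sum_congr rfl (g := fun _ => h u) (fun σ hσ => by
      rw [(Finset.mem_filter.1 hσ).2]), Finset.sum_const, hc u, ← hcdef, nsmul_eq_mul]
  have h2 : Nat.card G = c * Nat.card H := by
    rw [Nat.card_eq_fintype_card, Nat.card_eq_fintype_card, ← Finset.card_univ (α := G),
      Finset.card_eq_sum_card_fiberwise (f := φ) (t := Finset.univ) (fun _ _ => Finset.mem_univ _),
      Finset.sum_congr rfl (g := fun _ => c) (fun u _ => by rw [hc u, hcdef]), Finset.sum_const,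
      Finset.card_univ, smul_eq_mul, mul_comm]
  rw [h1, h2]
  push_cast
  ring

/-- the roots of `X ^ m - v` -/
abbrev Om (L : Type) [Field L] (m : ℕ) (v : ℤ) : Type := {x : L // x ^ m = (v : L)}

end FieldAux

open FieldAux

/-- Field -/
theorem card_fix (L : Type) [Field L] [NumberField L] [IsGalois ℚ L] (m : ℕ) (hm0 : 0 < m)
    (hm : Odd m) (hsq : Squarefree m) (v : ℤ) (q : ℕ) (hq : q.Prime)
    (h1 : (q : ℤ) ∣ v) (h2 : ¬ (q : ℤ) ^ 2 ∣ v)
    (hL : (X ^ m - C (v : ℚ) : ℚ[X]).IsSplittingField ℚ L) :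
    (Nat.card {σ : Gal(L/ℚ) | ∃ x : L, x ^ m = v ∧ σ x = x} : ℝ) / Nat.card Gal(L/ℚ) =
      ∏ l ∈ m.primeFactors, (1 - 1 / (l : ℝ)) := by
  classical
  have : NeZero m := ⟨hm0.ne'⟩
  have hv0 : v ≠ 0 := by
    rintro rfl
    exact h2 (dvd_zero _)
  have hvL : (v : L) ≠ 0 := by exact_mod_cast hv0
  -- the roots
  have hmap : (X ^ m - C (v : ℚ) : ℚ[X]).map (algebraMap ℚ L) = X ^ m - C (v : L) := by
    rw [Polynomial.map_sub, Polynomial.map_pow, map_X, map_C, map_intCast]
  have hspl : (X ^ m - C (v : L) : L[X]).Splits := by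
    have h3 := hL.splits
    rwa [hmap] at h3
  have hsep : (X ^ m - C (v : L) : L[X]).Separable := by
    apply separable_X_pow_sub_C
    · exact_mod_cast hm0.ne'
    · exact hvL
  have hne0 : (X ^ m - C (v : L) : L[X]) ≠ 0 := (monic_X_pow_sub_C _ hm0.ne').ne_zero
  have hmemroot : ∀ x : L, x ∈ (X ^ m - C (v : L) : L[X]).roots ↔ x ^ m = v := by
    intro x
    rw [mem_roots hne0, IsRoot.def, eval_sub, eval_pow, eval_X, eval_C, sub_eq_zero]
  have hfinOm : Finite (Om L m v) := by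
    have h := (X ^ m - C (v : L) : L[X]).roots.toFinset.finite_toSet
    refine Set.Finite.to_subtype (s := {x : L | x ^ m = (v : L)}) (h.subset ?_)
    intro x hx
    rw [Finset.mem_coe, Multiset.mem_toFinset, hmemroot]
    exact hx
  have hcardroots : (X ^ m - C (v : L) : L[X]).roots.toFinset.card = m := by
    rw [Multiset.toFinset_card_of_nodup (nodup_roots hsep), ← hspl.natDegree_eq_card_roots,
      natDegree_X_pow_sub_C]
  have hcardOm : Nat.card (Om L m v) = m := by
    have e : Om L m v ≃ {x : L // x ∈ (X ^ m - C (v : L) : L[X]).roots.toFinset} :=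
      Equiv.subtypeEquivRight fun x => by rw [Multiset.mem_toFinset, hmemroot]
    rw [Nat.card_congr e, Nat.card_eq_fintype_card, Fintype.card_coe, hcardroots]
  have hneOm : Nonempty (Om L m v) := by
    by_contra h
    rw [not_nonempty_iff] at h
    rw [Nat.card_of_isEmpty] at hcardOm
    omega
  obtain ⟨x₀⟩ := id hneOm
  have hx₀ : x₀.1 ≠ 0 := by
    intro h
    have h3 := x₀.2
    rw [h, zero_pow hm0.ne'] at h3
    exact hvL h3.symm
  -- a primitive root of unity
  obtain ⟨ζ, hζ⟩ : ∃ ζ : L, IsPrimitiveRoot ζ m := by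
    rw [← card_rootsOfUnity_eq_iff_exists_isPrimitiveRoot]
    have hcc : Nat.card (rootsOfUnity m L) = Nat.card (Om L m v) := by
      refine Nat.card_congr (Equiv.symm ⟨fun x => ⟨Units.mk0 (x.1 / x₀.1) ?_, ?_⟩,
        fun u => ⟨x₀.1 * (u.1 : L), ?_⟩, ?_, ?_⟩)
      · apply div_ne_zero _ hx₀
        intro h
        have h3 := x.2
        rw [h, zero_pow hm0.ne'] at h3
        exact hvL h3.symm
      · rw [mem_rootsOfUnity]
        apply Units.ext
        rw [Units.val_pow_eq_pow_val, Units.val_mk0, div_pow, x.2, x₀.2, div_self hvL,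
          Units.val_one]
      · have h3 : (u.1 : L) ^ m = 1 := by
          have h4 := u.2
          rw [mem_rootsOfUnity] at h4
          have h5 := congrArg (fun z : Lˣ => (z : L)) h4
          simpa using h5
        rw [mul_pow, x₀.2, h3, mul_one]
      · intro x
        apply Subtype.ext
        simp only [Units.val_mk0]
        rw [mul_div_cancel₀ _ hx₀]
      · intro u
        apply Subtype.ext
        apply Units.ext
        simp only [Units.val_mk0]
        rw [mul_div_cancel_left₀ _ hx₀]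
    rw [hcc, hcardOm]
  let χ : Gal(L/ℚ) →* (ZMod m)ˣ := hζ.autToPow ℚ
  have hχ : ∀ σ : Gal(L/ℚ), ζ ^ (χ σ : ZMod m).val = σ ζ := fun σ => hζ.autToPow_spec ℚ σ
  -- surjectivity of the cyclotomic character
  have hsurj : Function.Surjective χ := by
    intro u
    have hu : IsPrimitiveRoot (ζ ^ (u : ZMod m).val) m :=
      hζ.pow_of_coprime _ (ZMod.val_coe_unit_coprime u)
    have h3 : IsConjRoot ℚ (ζ ^ (u : ZMod m).val) ζ := by
      rw [isConjRoot_def, ← cyclotomic_eq_minpoly_rat hζ hm0, ← cyclotomic_eq_minpoly_rat hu hm0]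
    rw [isConjRoot_iff_exists_algEquiv] at h3
    obtain ⟨σ, hσ⟩ := h3
    refine ⟨σ, ?_⟩
    apply Units.ext
    apply ZMod.val_injective
    apply hζ.pow_inj (ZMod.val_lt _) (ZMod.val_lt _)
    rw [hχ, hσ]
  -- transitivity
  let K : IntermediateField ℚ L := ℚ⟮ζ⟯
  have hcyc : IsCyclotomicExtension {m} ℚ K :=
    IsPrimitiveRoot.intermediateField_adjoin_isCyclotomicExtension ℚ hζ
  have habg : IsAbelianGalois ℚ K := IsCyclotomicExtension.isAbelianGalois {m} ℚ K
  have hirr : Irreducible (X ^ m - C (v : K) : K[X]) := by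
    refine irr K (fun σ τ => ?_) m hm v q hq h1 h2
    exact mul_comm' σ τ
  have hmonic : (X ^ m - C (v : K) : K[X]).Monic := monic_X_pow_sub_C _ hm0.ne'
  have hmin : ∀ x : Om L m v, minpoly K x.1 = X ^ m - C (v : K) := by
    intro x
    refine (minpoly.eq_of_irreducible_of_monic hirr ?_ hmonic).symm
    rw [map_sub, map_pow, aeval_X, aeval_C, map_intCast, x.2, sub_self]
  let act : MulAction Gal(L/ℚ) (Om L m v) :=
    { smul := fun σ x => ⟨σ x.1, by rw [← map_pow, x.2, map_intCast]⟩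
      one_smul := fun x => rfl
      mul_smul := fun σ τ x => rfl }
  have hact : ∀ (σ : Gal(L/ℚ)) (x : Om L m v), (σ • x).1 = σ x.1 := fun σ x => rfl
  have hfG : Fintype Gal(L/ℚ) := Fintype.ofFinite _
  have hfO : Fintype (Om L m v) := Fintype.ofFinite _
  have htr : ∀ x y : Om L m v, ∃ n ∈ χ.ker, n • x = y := by
    intro x y
    have h3 : IsConjRoot K y.1 x.1 := by
      rw [isConjRoot_def, hmin, hmin]
    rw [isConjRoot_iff_exists_algEquiv] at h3
    obtain ⟨σ, hσ⟩ := h3
    refine ⟨σ.restrictScalars ℚ, ?_, ?_⟩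
    · rw [MonoidHom.mem_ker]
      apply Units.ext
      apply ZMod.val_injective
      apply hζ.pow_inj (ZMod.val_lt _) (ZMod.val_lt _)
      rw [hχ]
      have h4 : σ ζ = ζ := σ.commutes (⟨ζ, mem_adjoin_simple_self ℚ ζ⟩ : K)
      rw [AlgEquiv.restrictScalars_apply, h4, Units.val_one]
      rcases Nat.lt_or_ge 1 m with h5 | h5
      · have : Fact (1 < m) := ⟨h5⟩
        rw [ZMod.val_one, pow_one]
      · have h6 : m = 1 := by omega
        subst h6
        have h7 : ζ = 1 := by simpa using hζ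
        rw [h7, one_pow]
    · apply Subtype.ext
      exact hσ
  -- fixed points
  have hfix : ∀ (σ : Gal(L/ℚ)) (x : Om L m v), σ • x = x →
      Nat.card {y : Om L m v | σ • y = y} = Nat.card {z : ZMod m | (χ σ : ZMod m) * z = z} := by
    intro σ x hx
    have hx1 : σ x.1 = x.1 := congrArg (fun z => z.1) hx
    have hx0 : x.1 ≠ 0 := by
      intro h
      have h3 := x.2
      rw [h, zero_pow hm0.ne'] at h3
      exact hvL h3.symm
    have hζm : ζ ^ m = 1 := hζ.pow_eq_one
    have hpow : ∀ z : ZMod m, (x.1 * ζ ^ z.val) ^ m = v := by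
      intro z
      rw [mul_pow, x.2, ← pow_mul, mul_comm z.val m, pow_mul, hζm, one_pow, mul_one]
    have hmod : ∀ a : ℕ, ζ ^ (a % m) = ζ ^ a := by
      intro a
      conv_rhs => rw [← Nat.div_add_mod a m, pow_add, pow_mul, hζm, one_pow, one_mul]
    have hσz : ∀ z : ZMod m, σ (ζ ^ z.val) = ζ ^ ((χ σ : ZMod m) * z).val := by
      intro z
      rw [map_pow, ← hχ, ← pow_mul, ZMod.val_mul, hmod]
    symm
    refine Nat.card_congr (Equiv.ofBijective (fun z => ⟨⟨x.1 * ζ ^ (z.1 : ZMod m).val, hpow z.1⟩, ?_⟩)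
      ⟨?_, ?_⟩)
    · apply Subtype.ext
      rw [hact]
      change σ (x.1 * ζ ^ (z.1 : ZMod m).val) = x.1 * ζ ^ (z.1 : ZMod m).val
      rw [map_mul, hx1, hσz, z.2]
    · intro z w hzw
      have h3 : x.1 * ζ ^ (z.1 : ZMod m).val = x.1 * ζ ^ (w.1 : ZMod m).val :=
        congrArg (fun t => t.1.1) hzw
      have h4 := mul_left_cancel₀ hx0 h3
      exact Subtype.ext (ZMod.val_injective m (hζ.pow_inj (ZMod.val_lt _) (ZMod.val_lt _) h4))
    · rintro ⟨y, hy⟩
      have hy1 : σ y.1 = y.1 := congrArg (fun z => z.1) hy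
      have h3 : (y.1 / x.1) ^ m = 1 := by rw [div_pow, y.2, x.2, div_self hvL]
      obtain ⟨i, hi, hi2⟩ := hζ.eq_pow_of_pow_eq_one h3
      have hval : ((i : ℕ) : ZMod m).val = i := ZMod.val_cast_of_lt hi
      have hyx : y.1 = x.1 * ζ ^ i := by rw [hi2, mul_div_cancel₀ _ hx0]
      refine ⟨⟨(i : ZMod m), ?_⟩, ?_⟩
      · change (χ σ : ZMod m) * (i : ZMod m) = i
        apply ZMod.val_injective
        apply hζ.pow_inj (ZMod.val_lt _) (ZMod.val_lt _)
        rw [← hσz, hval, hi2, map_div₀, hy1, hx1]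
      · apply Subtype.ext
        apply Subtype.ext
        change x.1 * ζ ^ ((i : ℕ) : ZMod m).val = y.1
        rw [hval, ← hyx]
  have hcount := count (G := Gal(L/ℚ)) (Ω := Om L m v) χ.ker hneOm htr
    (fun σ => Nat.card {z : ZMod m | (χ σ : ZMod m) * z = z})
    (fun σ τ h => by
      have h3 : χ σ = χ τ := by
        rw [MonoidHom.mem_ker, map_mul, map_inv, inv_mul_eq_one] at h
        exact h
      simp only [h3]) hfix
    (fun σ => by
      have : Nonempty {z : ZMod m | (χ σ : ZMod m) * z = z} := ⟨⟨0, mul_zero _⟩⟩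
      exact Nat.card_pos)
  have hset : {σ : Gal(L/ℚ) | ∃ x : L, x ^ m = v ∧ σ x = x} =
      {σ : Gal(L/ℚ) | ∃ x : Om L m v, σ • x = x} := by
    ext σ
    constructor
    · rintro ⟨x, hx, hσ⟩
      exact ⟨⟨x, hx⟩, Subtype.ext hσ⟩
    · rintro ⟨x, hx⟩
      exact ⟨x.1, x.2, congrArg (fun z => z.1) hx⟩
  have hsum := sum_comp_hom χ hsurj
    (fun u => 1 / (Nat.card {z : ZMod m | (u : ZMod m) * z = z} : ℝ))
  rw [avg m hsq] at hsum
  have hφ : (Nat.card (ZMod m)ˣ : ℝ) = m.totient := by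
    rw [Nat.card_eq_fintype_card, ZMod.card_units_eq_totient]
  rw [hφ] at hsum
  have hφ0 : (m.totient : ℝ) ≠ 0 := by
    exact_mod_cast (Nat.totient_pos.2 hm0).ne'
  have hG0 : (Nat.card Gal(L/ℚ) : ℝ) ≠ 0 := by
    exact_mod_cast Nat.card_pos.ne'
  rw [hset, hcount, div_eq_iff hG0]
  have h3 : (∑ σ : Gal(L/ℚ), 1 / (Nat.card {z : ZMod m | (χ σ : ZMod m) * z = z} : ℝ)) *
      (m.totient : ℝ) = ((∏ l ∈ m.primeFactors, (1 - 1 / (l : ℝ))) * Nat.card Gal(L/ℚ)) *
        (m.totient : ℝ) := by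
    rw [hsum]
    ring
  exact mul_right_cancel₀ hφ0 h3

end Pool.Agent.PRD
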