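import Mathlib

/-!
# Irreducibility of `X ^ m - v` over abelian fields
-/

set_option autoImplicit false

namespace Pool.Agent.PRD

open Polynomial

/-- an integer exactly divisible by a prime is not a perfect power in the rationals -/
theorem irr_rat_ne (l : ℕ) (hl : 2 ≤ l) (v : ℤ) (q : ℕ) (hq : q.Prime)
    (h1 : (q : ℤ) ∣ v) (h2 : ¬ (q : ℤ) ^ 2 ∣ v) (b : ℚ) : b ^ l ≠ (v : ℚ) := by
  intro h
  have : Fact q.Prime := ⟨hq⟩
  have hv0 : v ≠ 0 := by
    rintro rfl
    exact h2 (dvd_zero _)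
  have hval : padicValInt q v = 1 := by
    have ha : 1 ≤ padicValInt q v := by
      have := (padicValInt_dvd_iff (p := q) 1 v).1 (by simpa using h1)
      rcases this with h | h
      · exact absurd h hv0
      · exact h
    have hb : ¬ 2 ≤ padicValInt q v := by
      intro h
      exact h2 ((padicValInt_dvd_iff (p := q) 2 v).2 (Or.inr h))
    omega
  have e1 : padicValRat q (b ^ l) = l * padicValRat q b := padicValRat.pow b
  rw [h, padicValRat.of_int, hval] at e1
  have : (l : ℤ) ∣ 1 := ⟨_, by simpa using e1⟩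
  have := Int.le_of_dvd one_pos this
  omega

/-- the key case: no `l`-th root of `v` in an abelian number field -/
theorem irr_key (K : Type) [Field K] [NumberField K] [IsGalois ℚ K]
    (hab : ∀ σ τ : Gal(K/ℚ), σ * τ = τ * σ) (l : ℕ) (hl : l.Prime) (hlo : Odd l) (v : ℤ) (q : ℕ)
    (hq : q.Prime) (h1 : (q : ℤ) ∣ v) (h2 : ¬ (q : ℤ) ^ 2 ∣ v) (b : K) : b ^ l ≠ (v : K) := by
  intro hb
  have hl2 := hl.two_le
  have hv0 : v ≠ 0 := by
    rintro rfl
    exact h2 (dvd_zero _)
  have hirr : Irreducible (X ^ l - C (v : ℚ) : ℚ[X]) :=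
    (X_pow_sub_C_irreducible_iff_of_prime hl).2 (irr_rat_ne l hl2 v q hq h1 h2)
  have hmin : X ^ l - C (v : ℚ) = minpoly ℚ b := by
    refine minpoly.eq_of_irreducible_of_monic hirr ?_ (monic_X_pow_sub_C _ hl.ne_zero)
    simp [hb]
  have hbint : IsIntegral ℚ b := Algebra.IsIntegral.isIntegral b
  have hdeg : Module.finrank ℚ (IntermediateField.adjoin ℚ {b}) = l := by
    rw [IntermediateField.adjoin.finrank hbint, ← hmin, natDegree_X_pow_sub_C]
  have hb0 : b ≠ 0 := by
    rintro rfl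
    rw [zero_pow hl.ne_zero] at hb
    exact hv0 (by exact_mod_cast hb.symm)
  have hbot : b ∉ (⊥ : IntermediateField ℚ K) := by
    intro hmem
    rw [IntermediateField.mem_bot] at hmem
    obtain ⟨c, hc⟩ := hmem
    apply irr_rat_ne l hl2 v q hq h1 h2 c
    have : algebraMap ℚ K (c ^ l) = algebraMap ℚ K (v : ℚ) := by
      rw [map_pow, hc, hb]
      simp
    exact (algebraMap ℚ K).injective this
  obtain ⟨σ, hσ⟩ : ∃ σ : Gal(K/ℚ), σ b ≠ b := by
    by_contra hcon
    push Not at hcon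
    exact hbot ((IsGalois.mem_bot_iff_fixed (F := ℚ) b).2 hcon)
  set ζ : K := σ b / b with hζ
  have hζl : ζ ^ l = 1 := by
    rw [hζ, div_pow, ← map_pow, hb]
    have : σ (v : K) = (v : K) := map_intCast σ v
    rw [this, div_self]
    exact_mod_cast hv0
  have hζ1 : ζ ≠ 1 := by
    intro h
    apply hσ
    rw [hζ, div_eq_one_iff_eq hb0] at h
    exact h
  have hprim : IsPrimitiveRoot ζ l := by
    have := IsPrimitiveRoot.orderOf ζ
    rwa [orderOf_eq_prime hζl hζ1 (hp := ⟨hl⟩)] at this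
  have hmem : ζ ∈ IntermediateField.adjoin ℚ {b} := by
    rw [← IsGalois.fixedField_fixingSubgroup (IntermediateField.adjoin ℚ {b})]
    intro τ
    have hτ : (τ : Gal(K/ℚ)) b = b :=
      (IntermediateField.mem_fixingSubgroup_iff _ _).1 τ.2 b
        (IntermediateField.mem_adjoin_simple_self ℚ b)
    change (τ : Gal(K/ℚ)) ζ = ζ
    rw [hζ, map_div₀, hτ]
    congr 1
    have := congrArg (fun g : Gal(K/ℚ) => g b) (hab τ σ)
    simp only [AlgEquiv.mul_apply] at this
    rw [this, hτ]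
  have hle : IntermediateField.adjoin ℚ {ζ} ≤ IntermediateField.adjoin ℚ {b} := by
    rw [IntermediateField.adjoin_simple_le_iff]
    exact hmem
  have hdvd := IntermediateField.finrank_dvd_of_le_right hle
  have hζint : IsIntegral ℚ ζ := Algebra.IsIntegral.isIntegral ζ
  rw [hdeg, IntermediateField.adjoin.finrank hζint, ← cyclotomic_eq_minpoly_rat hprim hl.pos,
    natDegree_cyclotomic, Nat.totient_prime hl] at hdvd
  have h3 : 3 ≤ l := by
    rcases hlo with ⟨t, ht⟩
    omega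
  have : l - 1 ∣ 1 := by
    have h := (Nat.dvd_sub hdvd (dvd_refl (l - 1)))
    have : l - (l - 1) = 1 := by omega
    rwa [this] at h
  have := Nat.le_of_dvd one_pos this
  omega

/-- Irr -/
theorem irr (K : Type) [Field K] [NumberField K] [IsGalois ℚ K]
    (hab : ∀ σ τ : Gal(K/ℚ), σ * τ = τ * σ) (m : ℕ) (hm : Odd m) (v : ℤ) (q : ℕ) (hq : q.Prime)
    (h1 : (q : ℤ) ∣ v) (h2 : ¬ (q : ℤ) ^ 2 ∣ v) : Irreducible (X ^ m - C (v : K) : K[X]) := by
  rw [X_pow_sub_C_irreducible_iff_of_odd hm]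
  intro d hd hd1 b hb
  obtain ⟨l, hl, hld⟩ := Nat.exists_prime_and_dvd hd1
  obtain ⟨e, he⟩ := hld
  refine irr_key K hab l hl (Odd.of_dvd_nat hm (dvd_trans ⟨e, he⟩ hd)) v q hq h1 h2 (b ^ e) ?_
  rw [← pow_mul, mul_comm, ← he, hb]

end Pool.Agent.PRD
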